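import Pool.Agent.C4F.StmtsP

/-!
# MP_be2f05_lc, row IND: independent sets of size `k` are the choices without conflicts
-/

set_option autoImplicit false

namespace Pool.Agent.C4F.H24

open Dat

theorem not_E_self (D : Dat) (β : ℕ → ℕ → Bool) (i x : ℕ) : ¬ D.E β i x i x := by
  rintro (⟨_, h⟩ | ⟨h | h, _⟩)
  · exact lt_irrefl _ h
  · have h1 := h.1
    have h2 := h.2.1
    omega
  · have h1 := h.1
    have h2 := h.2.1
    omega

theorem adj_iff (D : Dat) (u v : Fin (D.k * 2 ^ D.W)) : D.gr.Adj u v ↔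
    D.adj D.bt ((u : ℕ) / 2 ^ D.W) ((u : ℕ) % 2 ^ D.W) ((v : ℕ) / 2 ^ D.W) ((v : ℕ) % 2 ^ D.W) :=
  Iff.rfl

theorem fin_eq {A B : ℕ} {u v : Fin (A * B)} (h1 : (u : ℕ) / B = (v : ℕ) / B)
    (h2 : (u : ℕ) % B = (v : ℕ) % B) : u = v := by
  apply Fin.ext
  rw [← Nat.div_add_mod (u : ℕ) B, ← Nat.div_add_mod (v : ℕ) B, h1, h2]

/-- Row IND. -/
theorem ind : IndStmt := by
  classical
  intro D hD
  have hB : 0 < 2 ^ D.W := Nat.pow_pos two_pos
  constructor
  · rintro ⟨s, hs, hind⟩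
    have hmaps : ∀ u ∈ s, (u : ℕ) / 2 ^ D.W ∈ Finset.range D.k := fun u _ =>
      Finset.mem_range.mpr (Nat.div_lt_of_lt_mul (lt_of_lt_of_eq u.2 (mul_comm _ _)))
    have hinj : Set.InjOn (fun u : Fin (D.k * 2 ^ D.W) => (u : ℕ) / 2 ^ D.W) s := by
      intro u hu v hv huv
      by_contra hne
      refine hind hu hv hne ((adj_iff D u v).mpr ⟨?_, Or.inl huv⟩)
      rintro ⟨h1, h2⟩
      exact hne (fin_eq h1 h2)
    have himg : s.image (fun u : Fin (D.k * 2 ^ D.W) => (u : ℕ) / 2 ^ D.W) = Finset.range D.k := by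
      apply Finset.eq_of_subset_of_card_le
      · intro i hi
        obtain ⟨u, hu, rfl⟩ := Finset.mem_image.mp hi
        exact hmaps u hu
      · rw [Finset.card_image_of_injOn hinj, Finset.card_range, hs]
    have hex : ∀ i, ∃ u : ℕ, i < D.k → ∃ hu : u < D.k * 2 ^ D.W,
        (⟨u, hu⟩ : Fin (D.k * 2 ^ D.W)) ∈ s ∧ u / 2 ^ D.W = i := by
      intro i
      by_cases hi : i < D.k
      · have h := himg ▸ Finset.mem_range.mpr hi
        obtain ⟨u, hu, hui⟩ := Finset.mem_image.mp h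
        exact ⟨u, fun _ => ⟨u.2, hu, hui⟩⟩
      · exact ⟨0, fun h => absurd h hi⟩
    choose g hg using hex
    have key : ∀ i < D.k, ∀ j < D.k, i ≠ j →
        ¬ D.adj D.bt i (g i % 2 ^ D.W) j (g j % 2 ^ D.W) := by
      intro i hi j hj hij had
      obtain ⟨hu, hus, hui⟩ := hg i hi
      obtain ⟨hv, hvs, hvj⟩ := hg j hj
      have hne : (⟨g i, hu⟩ : Fin (D.k * 2 ^ D.W)) ≠ ⟨g j, hv⟩ := by
        intro h
        have h' : g i = g j := congrArg Fin.val h
        rw [h'] at hui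
        exact hij (hui.symm.trans hvj)
      refine hind hus hvs hne ((adj_iff D _ _).mpr ?_)
      show D.adj D.bt (g i / 2 ^ D.W) (g i % 2 ^ D.W) (g j / 2 ^ D.W) (g j % 2 ^ D.W)
      rw [hui, hvj]
      exact had
    have hk2 : 2 ≤ D.k := by
      have h1 := hD.hk
      have h2 := hD.three
      nlinarith
    refine ⟨fun i => g i % 2 ^ D.W, fun i hi => ⟨Nat.mod_lt _ hB, fun hbad => ?_⟩,
      fun i hi j hj hE => ?_⟩
    · obtain ⟨j, hj, hij⟩ : ∃ j < D.k, i ≠ j := by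
        by_cases h0 : i = 0
        · exact ⟨1, by omega, by omega⟩
        · exact ⟨0, by omega, h0⟩
      exact key i hi j hj hij ⟨fun h => hij h.1, Or.inr (Or.inl hbad)⟩
    · by_cases hij : i = j
      · subst hij
        exact not_E_self D _ _ _ hE
      · exact key i hi j hj hij ⟨fun h => hij h.1, Or.inr (Or.inr (Or.inr (Or.inl hE)))⟩
  · rintro ⟨f, hf1, hf2⟩
    have hlt : ∀ i : Fin D.k, (i : ℕ) * 2 ^ D.W + f i < D.k * 2 ^ D.W := by
      intro i
      have h1 := (hf1 i i.2).1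
      have h2 : ((i : ℕ) + 1) * 2 ^ D.W ≤ D.k * 2 ^ D.W := Nat.mul_le_mul_right _ i.2
      rw [add_mul, one_mul] at h2
      omega
    have hdiv : ∀ i : Fin D.k, ((i : ℕ) * 2 ^ D.W + f i) / 2 ^ D.W = i := by
      intro i
      rw [add_comm, Nat.add_mul_div_right _ _ hB, Nat.div_eq_of_lt (hf1 i i.2).1, zero_add]
    have hmod : ∀ i : Fin D.k, ((i : ℕ) * 2 ^ D.W + f i) % 2 ^ D.W = f i := by
      intro i
      rw [add_comm, Nat.add_mul_mod_self_right, Nat.mod_eq_of_lt (hf1 i i.2).1]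
    have hinj : Function.Injective
        (fun i : Fin D.k => (⟨(i : ℕ) * 2 ^ D.W + f i, hlt i⟩ : Fin (D.k * 2 ^ D.W))) := by
      intro i j hij
      have h1 : (i : ℕ) * 2 ^ D.W + f i = (j : ℕ) * 2 ^ D.W + f j := congrArg Fin.val hij
      apply Fin.ext
      rw [← hdiv i, ← hdiv j, h1]
    refine ⟨Finset.univ.image
      (fun i : Fin D.k => (⟨(i : ℕ) * 2 ^ D.W + f i, hlt i⟩ : Fin (D.k * 2 ^ D.W))), ?_, ?_⟩
    · rw [Finset.card_image_of_injective _ hinj, Finset.card_univ, Fintype.card_fin]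
    · intro u hu v hv huv hadj
      rw [Finset.coe_image] at hu hv
      obtain ⟨i, -, rfl⟩ := hu
      obtain ⟨j, -, rfl⟩ := hv
      have hij : i ≠ j := fun h => huv (by rw [h])
      have hij' : (i : ℕ) ≠ j := fun h => hij (Fin.ext h)
      have h := (adj_iff D _ _).mp hadj
      have h' : D.adj D.bt (((i : ℕ) * 2 ^ D.W + f i) / 2 ^ D.W)
        (((i : ℕ) * 2 ^ D.W + f i) % 2 ^ D.W) (((j : ℕ) * 2 ^ D.W + f j) / 2 ^ D.W)
        (((j : ℕ) * 2 ^ D.W + f j) % 2 ^ D.W) := h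
      rw [hdiv, hdiv, hmod, hmod] at h'
      rcases h'.2 with h | h | h | h | h
      · exact hij' h
      · exact (hf1 i i.2).2 h
      · exact (hf1 j j.2).2 h
      · exact hf2 i i.2 j j.2 h
      · exact hf2 j j.2 i i.2 h

end Pool.Agent.C4F.H24
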